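import Mathlib
import Pool.Agent.Results.MP_77d073_nt.IndependentCoefficients
import Pool.Agent.H715R2.Uncountable
import Pool.Agent.R503.CSD.Val
import Pool.Agent.Results.MP_77d073_nt.CountableValues

/-! # MP_77d073_nt: Oppenheim's conjecture and the attainment of the infimum

Let `n ≥ 3`, let `L 1, ..., L n` be independent linear forms with product `F` bounded away from zero
at the nonzero integer points, and let `Limits L` be the set of the limits of the systems
`a i • (L i ∘ γ)` (`a` positive of product one, `γ` integral of determinant `±1`). `L` is recurrent if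
it lies in `Limits L'` for all `L'` in `Limits L`; every `L` has recurrent limits. Let `values L` be
the set of the numbers `|F p|`, `p` a nonzero integer point.

1. Let `L` be a recurrent counterexample to Oppenheim's conjecture and `C` a countable set of real
   numbers. The limits `M` of `L` none of whose values lies in `C` are dense in `Limits L`.
2. Let `L` be a recurrent counterexample. Every open set which meets `values L` contains uncountably
   many elements of the closure of `values L`.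
3. Oppenheim's conclusion holds for `L` if and only if `values L` is closed, if and only if all
   limits of `L` attain their infimum, and if and only if for all limits `M` of `L` the set
   `values M` has an isolated point. If `L` is recurrent, it holds if and only if `values L` has an
   isolated point.
4. Oppenheim's conjecture in dimension `n` is equivalent to each of the following statements: the
   set of the values of every product of `n` independent forms which is bounded away from zero is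
   closed; every such product attains the infimum of its absolute value at a nonzero integer point;
   the set of the values of every such product has an isolated point. -/

set_option autoImplicit false

open Filter Topology
open Pool.Agent

namespace Pool.Agent.Results.MP_77d073_nt.AttainedInfimum

variable {n : ℕ}

/-- the product of the linear forms with the coefficients `L i`, at an integer point -/
noncomputable def F (L : Fin n → Fin n → ℝ) (p : Fin n → ℤ) : ℝ :=
  ∏ i : Fin n, ∑ j : Fin n, L i j * (p j : ℝ)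

/-- the product is bounded away from zero at the nonzero integer points -/
def BoundedAway (L : Fin n → Fin n → ℝ) : Prop :=
  ∃ ν : ℝ, 0 < ν ∧ ∀ p : Fin n → ℤ, p ≠ 0 → ν ≤ |F L p|

/-- Oppenheim's conclusion: there is an irreducible RS-matrix whose invariant planes are the
hyperplanes `L i = 0`. -/
def HasMatrix (L : Fin n → Fin n → ℝ) : Prop :=
  ∃ A : Matrix (Fin n) (Fin n) ℤ,
    A.det = 1 ∧
    Irreducible (A.charpoly.map (Int.castRingHom ℚ)) ∧
    (∀ z : ℂ, Polynomial.aeval z A.charpoly = 0 → z.im = 0) ∧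
    ∀ i : Fin n, ∀ x : Fin n → ℝ, ∑ j, L i j * x j = 0 →
      ∑ j, L i j * ((A.map (Int.cast : ℤ → ℝ)).mulVec x) j = 0

/-- Oppenheim's conjecture in dimension `n` -/
def Oppenheim (n : ℕ) : Prop :=
  ∀ L : Fin n → Fin n → ℝ, LinearIndependent ℝ L → BoundedAway L → HasMatrix L

/-- The limits of the systems `a i • (L i ∘ γ)`, `a` positive of product one, `γ` integral of
determinant `±1`. -/
def Limits (L : Fin n → Fin n → ℝ) : Set (Fin n → Fin n → ℝ) :=
  closure {L' | ∃ (a : Fin n → ℝ) (γ : Matrix (Fin n) (Fin n) ℤ), (∀ i, 0 < a i) ∧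
    ∏ i, a i = 1 ∧ |γ.det| = 1 ∧ ∀ i j, L' i j = a i * ∑ k, L i k * (γ k j : ℝ)}

/-- `L` is a limit of each of its limits. -/
def Recurrent (L : Fin n → Fin n → ℝ) : Prop := ∀ L' ∈ Limits L, L ∈ Limits L'

/-- the absolute values of the product at the nonzero integer points -/
def values (L : Fin n → Fin n → ℝ) : Set ℝ := {t | ∃ p : Fin n → ℤ, p ≠ 0 ∧ |F L p| = t}

/-- The infimum of the absolute value of the product is attained at a nonzero integer point. -/
def Attained (L : Fin n → Fin n → ℝ) : Prop :=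
  ∃ p : Fin n → ℤ, p ≠ 0 ∧ ∀ q : Fin n → ℤ, q ≠ 0 → |F L p| ≤ |F L q|

/-- The set of the values has an isolated point. -/
def HasIsolatedValue (L : Fin n → Fin n → ℝ) : Prop :=
  ∃ t ∈ values L, ∃ ε : ℝ, 0 < ε ∧ ∀ u ∈ values L, |u - t| < ε → u = t

/-! ### The lemmas of `IndependentCoefficients` -/

lemma limit_props (hn : 3 ≤ n) {L : Fin n → Fin n → ℝ} (hL : LinearIndependent ℝ L)
    (hb : BoundedAway L) {L' : Fin n → Fin n → ℝ} (hL' : L' ∈ Limits L) :
    LinearIndependent ℝ L' ∧ BoundedAway L' ∧ (HasMatrix L ↔ HasMatrix L') :=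
  IndependentCoefficients.limit_props hn hL hb hL'

lemma exists_recurrent (hn : 3 ≤ n) {L : Fin n → Fin n → ℝ} (hL : LinearIndependent ℝ L)
    (hb : BoundedAway L) : ∃ L' ∈ Limits L, Recurrent L' :=
  IndependentCoefficients.exists_recurrent hn hL hb

lemma limits_trans {L L' : Fin n → Fin n → ℝ} (hL' : L' ∈ Limits L) : Limits L' ⊆ Limits L :=
  IndependentCoefficients.limits_trans hL'

lemma self_mem (L : Fin n → Fin n → ℝ) : L ∈ Limits L := IndependentCoefficients.self_mem L

lemma continuous_F (p : Fin n → ℤ) : Continuous (fun L : Fin n → Fin n → ℝ => F L p) := by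
  unfold F
  fun_prop

/-- a value of the form `a i • (L i ∘ γ)` is a value of `L` -/
lemma F_orbit {L L' : Fin n → Fin n → ℝ} {a : Fin n → ℝ} {γ : Matrix (Fin n) (Fin n) ℤ}
    (ha : ∏ i, a i = 1) (h : ∀ i j, L' i j = a i * ∑ k, L i k * (γ k j : ℝ)) (p : Fin n → ℤ) :
    F L' p = F L (γ.mulVec p) := by
  unfold F
  have h1 : ∀ i, ∑ j, L' i j * (p j : ℝ) = a i * ∑ k, L i k * ((γ.mulVec p) k : ℝ) := by
    intro i
    have h2 : ∀ k, ((γ.mulVec p) k : ℝ) = ∑ j, (γ k j : ℝ) * (p j : ℝ) := by
      intro k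
      rw [Matrix.mulVec, dotProduct]
      push_cast
      rfl
    simp_rw [h, h2, Finset.mul_sum, Finset.sum_mul]
    rw [Finset.sum_comm]
    refine Finset.sum_congr rfl fun k _ => Finset.sum_congr rfl fun j _ => ?_
    ring
  simp_rw [h1]
  rw [Finset.prod_mul_distrib, ha, one_mul]

lemma mulVec_ne_zero {γ : Matrix (Fin n) (Fin n) ℤ} (hγ : |γ.det| = 1) {p : Fin n → ℤ}
    (hp : p ≠ 0) : γ.mulVec p ≠ 0 := by
  intro h0
  have hdet : γ.det ≠ 0 := by
    intro h1
    rw [h1] at hγ
    simp at hγ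
  exact hp (Matrix.eq_zero_of_mulVec_eq_zero hdet h0)

/-- the values of a limit are limits of values -/
lemma values_limit {L M : Fin n → Fin n → ℝ} (hM : M ∈ Limits L) {p : Fin n → ℤ} (hp : p ≠ 0) :
    |F M p| ∈ closure (values L) := by
  have hcont : Continuous (fun L : Fin n → Fin n → ℝ => |F L p|) := (continuous_F p).abs
  refine closure_minimal ?_ (isClosed_closure.preimage hcont) hM
  rintro L' ⟨a, γ, -, ha1, hγ, h⟩
  refine subset_closure ⟨γ.mulVec p, mulVec_ne_zero hγ hp, ?_⟩
  rw [← F_orbit ha1 h]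

/-- limits of limits of a recurrent system -/
lemma recurrent_limit {L M : Fin n → Fin n → ℝ} (hL : Recurrent L) (hM : M ∈ Limits L) :
    Recurrent M := fun M' hM' => limits_trans (hL M' (limits_trans hM hM')) hM

/-! ### Avoiding countably many values -/

/-- the limits without values in a countable set are dense -/
theorem dense_avoid (hn : 3 ≤ n) {L : Fin n → Fin n → ℝ} (hL : LinearIndependent ℝ L)
    (hb : BoundedAway L) (hA : ¬ HasMatrix L) (hrec : Recurrent L) {C : Set ℝ}
    (hC : C.Countable) :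
    Limits L ⊆ closure {M | M ∈ Limits L ∧ ∀ p : Fin n → ℤ, p ≠ 0 → |F M p| ∉ C} := by
  classical
  -- the relations
  set T : Set ((Fin n → ℤ) × ℝ) := {q | q.1 ≠ 0 ∧ (q.2 ∈ C ∨ -q.2 ∈ C)} with hT
  have hTc : T.Countable := by
    have h1 : T ⊆ Set.univ ×ˢ (C ∪ Neg.neg ⁻¹' C) := by
      rintro ⟨p, c⟩ ⟨-, h⟩
      exact ⟨Set.mem_univ _, h⟩
    refine (Set.Countable.prod (Set.countable_univ) (hC.union ?_)).mono h1
    exact hC.preimage neg_injective
  rcases T.eq_empty_or_nonempty with hTe | hTne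
  · have hCe : C = ∅ := by
      by_contra hne
      obtain ⟨c, hc⟩ := Set.nonempty_iff_ne_empty.2 hne
      have hmem : ((fun _ => 1 : Fin n → ℤ), c) ∈ T := by
        refine ⟨fun h0 => ?_, Or.inl hc⟩
        have := congrFun h0 ⟨0, by omega⟩
        simp at this
      rw [hTe] at hmem
      exact hmem
    intro M hM
    refine subset_closure ⟨hM, fun p _ => ?_⟩
    rw [hCe]
    exact Set.notMem_empty _
  obtain ⟨u, hu⟩ := hTc.exists_eq_range hTne
  have hu1 : ∀ k, (u k).1 ≠ 0 := fun k => (hu ▸ Set.mem_range_self k : u k ∈ T).1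
  have h1 := (IndependentCoefficients.result n hn).1 L hL hb hA hrec
  set lf : Fin n → (Fin n → ℤ) → (Fin n → Fin n → ℝ) → ℝ := fun i p M => ∑ j, M i j * (p j : ℝ)
    with hlf
  have hlfc : ∀ i p, Continuous (lf i p) := fun i p => by
    rw [hlf]
    fun_prop
  set W : ℕ → Set (Fin n → Fin n → ℝ) := fun k => {M | ∀ i, lf i (u k).1 M ≠ 0} with hW
  set f : ℕ → (Fin n → Fin n → ℝ) → ℝ := fun k M => F M (u k).1 - (u k).2 with hf
  set i₀ : Fin n := ⟨0, by omega⟩ with hi₀
  set X : ℕ → Fin 1 → Fin n → ℤ := fun k _ => (u k).1 with hX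
  have hfX : ∀ k, f k = fun M => R503.CSD.FV (X k) M 0 - (u k).2 := fun k => rfl
  have han : ∀ k M, HasStrictFDerivAt (f k) (fderiv ℝ (f k) M) M := by
    intro k M
    have h2 : AnalyticAt ℝ (f k) M := by
      rw [hfX]
      exact (R503.CSD.an_FVk (X k) 0 M).sub analyticAt_const
    exact h2.hasStrictFDerivAt
  have hWo : ∀ k, IsOpen (W k) := by
    intro k
    have h2 : W k = ⋂ i, {M | lf i (u k).1 M ≠ 0} := by
      ext M
      simp [hW]
    rw [h2]
    exact isOpen_iInter_of_finite fun i => isOpen_ne_fun (hlfc i _) continuous_const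
  have hder : ∀ k, ∀ M ∈ W k, ∀ j,
      fderiv ℝ (f k) M (IndependentCoefficients.place i₀ j M) ≠ 0 := by
    intro k M hM j
    have hl : ∀ q : Fin 1, R503.CSD.lf i₀ (X k q) M ≠ 0 := fun q => hM i₀
    have h2 := R503.CSD.fv_dir (X k) (i := i₀) (j := j) M hl
    have h3 : fderiv ℝ (f k) M = (ContinuousLinearMap.proj (R := ℝ)
        (φ := fun _ : Fin 1 => ℝ) 0).comp (fderiv ℝ (R503.CSD.FV (X k)) M) := by
      have h4 : f k = fun M => (ContinuousLinearMap.proj (R := ℝ)
        (φ := fun _ : Fin 1 => ℝ) 0) (R503.CSD.FV (X k) M) - (u k).2 := rfl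
      rw [h4]
      have h5 := (((ContinuousLinearMap.proj (R := ℝ) (φ := fun _ : Fin 1 => ℝ)
        0).hasFDerivAt.comp M (R503.CSD.an_FV (X k) M).differentiableAt.hasFDerivAt).sub_const
          (u k).2)
      exact h5.fderiv
    rw [h3, ContinuousLinearMap.comp_apply, IndependentCoefficients.place_eq, h2]
    show R503.CSD.FV (X k) M 0 * (R503.CSD.lf j (X k 0) M / R503.CSD.lf i₀ (X k 0) M) ≠ 0
    refine mul_ne_zero ?_ (div_ne_zero (hM j) (hM i₀))
    rw [R503.CSD.FV_eq]
    exact Finset.prod_ne_zero_iff.2 fun i _ => hM i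
  have h6 := h1 W f (fun k M => fderiv ℝ (f k) M) (fun _ => i₀) (fun _ => Finset.univ.erase i₀)
    hWo (fun _ => Finset.notMem_erase _ _) (fun _ => by
      rw [Finset.card_erase_of_mem (Finset.mem_univ _), Finset.card_univ, Fintype.card_fin]
      have := (Nat.minFac_prime (by omega : n ≠ 1)).two_le
      omega) (fun k M _ => han k M) (fun k M hM _ j _ => hder k M hM j)
  intro M₀ hM₀
  refine closure_mono ?_ (h6 hM₀)
  rintro M ⟨hM, hM2⟩
  refine ⟨hM, fun p hp hpC => ?_⟩
  obtain ⟨-, ⟨ν, hν, hbM⟩, -⟩ := limit_props hn hL hb hM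
  have hmem : (p, F M p) ∈ T := by
    refine ⟨hp, ?_⟩
    rcases abs_choice (F M p) with h | h
    · left
      rwa [h] at hpC
    · right
      rwa [h] at hpC
  rw [hu] at hmem
  obtain ⟨k, hk⟩ := hmem
  have hk1 : (u k).1 = p := by rw [hk]
  have hk2 : (u k).2 = F M p := by rw [hk]
  refine hM2 k (fun i hi => ?_) ?_
  · have h7 := hbM p hp
    have h8 : F M p = 0 := Finset.prod_eq_zero (Finset.mem_univ i) (by rw [← hk1]; exact hi)
    rw [h8, abs_zero] at h7
    exact absurd h7 (not_le.2 hν)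
  · show F M (u k).1 - (u k).2 = 0
    rw [hk1, hk2, sub_self]

/-! ### Forms with Oppenheim's conclusion -/

/-- the values of a form with Oppenheim's conclusion -/
lemma values_sub (hn : 3 ≤ n) {L : Fin n → Fin n → ℝ} (hL : LinearIndependent ℝ L)
    (hb : BoundedAway L) (hA : HasMatrix L) :
    ∃ c : ℝ, 0 < c ∧ ∀ p : Fin n → ℤ, ∃ z : ℕ, |F L p| = c * z := by
  obtain ⟨c, hc, h⟩ := H715R2.values_of_propInt (IndependentCoefficients.propInt hn hL hb hA)
  refine ⟨|c|, abs_pos.2 hc, fun p => ?_⟩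
  obtain ⟨z, hz⟩ := h p
  refine ⟨z.natAbs, ?_⟩
  have h1 : F L p = c * z := hz
  rw [h1, abs_mul, Nat.cast_natAbs, Int.cast_abs]

lemma attained_of (hn : 3 ≤ n) {L : Fin n → Fin n → ℝ} (hL : LinearIndependent ℝ L)
    (hb : BoundedAway L) (hA : HasMatrix L) : Attained L := by
  classical
  obtain ⟨c, hc, h⟩ := values_sub hn hL hb hA
  choose z hz using h
  have hne : ∃ m, ∃ p : Fin n → ℤ, p ≠ 0 ∧ z p = m := by
    refine ⟨_, fun _ => 1, fun h0 => ?_, rfl⟩
    have := congrFun h0 ⟨0, by omega⟩
    simp at this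
  obtain ⟨p, hp, hzp⟩ := Nat.find_spec hne
  refine ⟨p, hp, fun q hq => ?_⟩
  rw [hz, hz]
  refine mul_le_mul_of_nonneg_left ?_ hc.le
  have h1 := Nat.find_min' hne ⟨q, hq, rfl⟩
  rw [← hzp] at h1
  exact_mod_cast h1

lemma closed_of (hn : 3 ≤ n) {L : Fin n → Fin n → ℝ} (hL : LinearIndependent ℝ L)
    (hb : BoundedAway L) (hA : HasMatrix L) : IsClosed (values L) := by
  obtain ⟨c, hc, h⟩ := values_sub hn hL hb hA
  have h1 : values L = (fun t : ℝ => c * t) '' ((Nat.cast : ℕ → ℝ) ''
      {m : ℕ | c * m ∈ values L}) := by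
    ext t
    constructor
    · rintro ⟨p, hp, rfl⟩
      obtain ⟨z, hz⟩ := h p
      exact ⟨z, ⟨z, ⟨p, hp, hz⟩, rfl⟩, hz.symm⟩
    · rintro ⟨_, ⟨m, hm, rfl⟩, rfl⟩
      exact hm
  rw [h1]
  exact (Homeomorph.mulLeft₀ c hc.ne').isClosedMap _
    (Nat.isClosedEmbedding_coe_real.isClosedMap _ (isClosed_discrete _))

lemma isolated_of (hn : 3 ≤ n) {L : Fin n → Fin n → ℝ} (hL : LinearIndependent ℝ L)
    (hb : BoundedAway L) (hA : HasMatrix L) : HasIsolatedValue L := by
  obtain ⟨c, hc, h⟩ := values_sub hn hL hb hA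
  have hone : (fun _ => 1 : Fin n → ℤ) ≠ 0 := fun h0 => by
    have := congrFun h0 ⟨0, by omega⟩
    simp at this
  refine ⟨|F L fun _ => 1|, ⟨_, hone, rfl⟩, c, hc, ?_⟩
  rintro u ⟨p, hp, rfl⟩ hu
  obtain ⟨z, hz⟩ := h p
  obtain ⟨w, hw⟩ := h fun _ => 1
  rw [hz, hw] at hu ⊢
  rw [← mul_sub, abs_mul, abs_of_pos hc] at hu
  have h1 : |((z : ℝ) - w)| < 1 := by
    by_contra hcon
    exact absurd hu (not_lt.2 (le_mul_of_one_le_right hc.le (not_lt.1 hcon)))
  have h2 : |((z : ℤ) - (w : ℤ))| < 1 := by exact_mod_cast h1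
  have h3 : (z : ℤ) = w := by
    have := Int.abs_lt_one_iff.1 h2
    omega
  have h4 : z = w := by exact_mod_cast h3
  rw [h4]

/-! ### Recurrent counterexamples -/

/-- the limit values near a value of a recurrent counterexample are uncountable -/
lemma uncountable_near (hn : 3 ≤ n) {L : Fin n → Fin n → ℝ} (hL : LinearIndependent ℝ L)
    (hb : BoundedAway L) (hA : ¬ HasMatrix L) (hrec : Recurrent L) {U : Set ℝ} (hU : IsOpen U)
    (hUv : (U ∩ values L).Nonempty) : ¬ (U ∩ closure (values L)).Countable := by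
  intro hC
  obtain ⟨t, htU, p, hp, rfl⟩ := hUv
  have h1 := dense_avoid hn hL hb hA hrec hC (self_mem L)
  have hcont : Continuous (fun L : Fin n → Fin n → ℝ => |F L p|) := (continuous_F p).abs
  obtain ⟨M, hMU, hM, hM2⟩ := mem_closure_iff.1 h1 _ (hU.preimage hcont) htU
  exact hM2 p hp ⟨hMU, values_limit hM hp⟩

/-- a recurrent counterexample has no isolated value -/
lemma not_isolated (hn : 3 ≤ n) {L : Fin n → Fin n → ℝ} (hL : LinearIndependent ℝ L)
    (hb : BoundedAway L) (hA : ¬ HasMatrix L) (hrec : Recurrent L) : ¬ HasIsolatedValue L := by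
  rintro ⟨t, ht, ε, hε, h⟩
  refine uncountable_near hn hL hb hA hrec (Metric.isOpen_ball (x := t) (ε := ε))
    ⟨t, Metric.mem_ball_self hε, ht⟩ ((Set.countable_singleton t).mono ?_)
  rintro u ⟨hu, hu2⟩
  have h1 : u ∈ closure (Metric.ball t ε ∩ values L) :=
    Metric.isOpen_ball.inter_closure ⟨hu, hu2⟩
  refine closure_minimal ?_ (isClosed_singleton (x := t)) h1
  rintro v ⟨hv, hv2⟩
  exact h v hv2 (by rwa [Metric.mem_ball, Real.dist_eq] at hv)

lemma values_countable (L : Fin n → Fin n → ℝ) : (values L).Countable := by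
  have h1 : values L ⊆ Set.range (fun p : Fin n → ℤ => |F L p|) := by
    rintro t ⟨p, -, rfl⟩
    exact ⟨p, rfl⟩
  exact (Set.countable_range _).mono h1

lemma values_nonempty (hn : 3 ≤ n) (L : Fin n → Fin n → ℝ) : (values L).Nonempty := by
  refine ⟨_, fun _ => 1, fun h0 => ?_, rfl⟩
  have := congrFun h0 ⟨0, by omega⟩
  simp at this

/-- A product whose values form a closed set satisfies Oppenheim's conclusion. -/
lemma of_closed (hn : 3 ≤ n) {L : Fin n → Fin n → ℝ} (hL : LinearIndependent ℝ L)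
    (hb : BoundedAway L) (hcl : IsClosed (values L)) : HasMatrix L := by
  have hn0 : (0 : ℝ) < (n : ℝ) ^ n := by
    have : (0 : ℝ) < n := by exact_mod_cast (by omega : 0 < n)
    positivity
  refine CountableValues.result n hn L hL hb
    ((n.factorial : ℝ) * |(Matrix.of L).det| / (n : ℝ) ^ n + 1) (Or.inl ?_) ?_
  · rw [mul_add, mul_div_cancel₀ _ hn0.ne']
    linarith
  · refine ((values_countable L).insert 0).mono (closure_minimal ?_ ?_)
    · rintro t ⟨x, hx, -⟩
      rcases eq_or_ne x 0 with h0 | h0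
      · left
        rw [← hx, h0]
        have : ∏ i : Fin n, ∑ j : Fin n, L i j * ((0 : Fin n → ℤ) j : ℝ) = 0 := by
          refine Finset.prod_eq_zero (Finset.mem_univ ⟨0, by omega⟩) ?_
          simp
        rw [this, abs_zero]
      · exact Or.inr ⟨x, h0, hx⟩
    · rw [Set.insert_eq]
      exact isClosed_singleton.union hcl

/-- a recurrent counterexample has limits which do not attain their infimum -/
lemma exists_not_attained (hn : 3 ≤ n) {L : Fin n → Fin n → ℝ} (hL : LinearIndependent ℝ L)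
    (hb : BoundedAway L) (hA : ¬ HasMatrix L) (hrec : Recurrent L) :
    ∃ M ∈ Limits L, ¬ Attained M := by
  have h1 := dense_avoid hn hL hb hA hrec (Set.countable_singleton (sInf (values L))) (self_mem L)
  obtain ⟨M, -, hM, hM2⟩ := mem_closure_iff.1 h1 _ isOpen_univ (Set.mem_univ L)
  refine ⟨M, hM, ?_⟩
  rintro ⟨p, hp, hmin⟩
  refine hM2 p hp ?_
  rw [Set.mem_singleton_iff]
  have hbdd : ∀ M : Fin n → Fin n → ℝ, BddBelow (values M) := fun M => ⟨0, by
    rintro t ⟨q, -, rfl⟩
    exact abs_nonneg _⟩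
  have hinf : ∀ M : Fin n → Fin n → ℝ, ∀ t ∈ closure (values M), sInf (values M) ≤ t := by
    intro M t ht
    refine closure_minimal ?_ isClosed_Ici ht
    intro u hu
    exact csInf_le (hbdd M) hu
  refine le_antisymm ?_ (hinf L _ (values_limit hM hp))
  refine le_csInf (values_nonempty hn L) ?_
  rintro t ⟨q, hq, rfl⟩
  have h2 : |F L q| ∈ closure (values M) := values_limit (hrec M hM) hq
  refine closure_minimal ?_ isClosed_Ici h2
  rintro u ⟨r, hr, rfl⟩
  exact hmin r hr

/-- the criterion behind all the equivalences -/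
lemma criterion (hn : 3 ≤ n) {P : (Fin n → Fin n → ℝ) → Prop}
    (h1 : ∀ L : Fin n → Fin n → ℝ, LinearIndependent ℝ L → BoundedAway L → HasMatrix L → P L)
    (h2 : ∀ L : Fin n → Fin n → ℝ, LinearIndependent ℝ L → BoundedAway L → ¬ HasMatrix L →
      Recurrent L → ∃ M ∈ Limits L, ¬ P M) :
    (∀ L : Fin n → Fin n → ℝ, LinearIndependent ℝ L → BoundedAway L →
      (HasMatrix L ↔ ∀ M ∈ Limits L, P M)) ∧
    (Oppenheim n ↔ ∀ L : Fin n → Fin n → ℝ, LinearIndependent ℝ L → BoundedAway L → P L) := by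
  have key : ∀ L : Fin n → Fin n → ℝ, LinearIndependent ℝ L → BoundedAway L →
      (HasMatrix L ↔ ∀ M ∈ Limits L, P M) := by
    intro L hL hb
    constructor
    · intro hA M hM
      obtain ⟨a, b, c⟩ := limit_props hn hL hb hM
      exact h1 M a b (c.1 hA)
    · intro hP
      by_contra hA
      obtain ⟨L', hL', hrec⟩ := exists_recurrent hn hL hb
      obtain ⟨a, b, c⟩ := limit_props hn hL hb hL'
      obtain ⟨M, hM, hPM⟩ := h2 L' a b (fun h => hA (c.2 h)) hrec
      exact hPM (hP M (limits_trans hL' hM))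
  refine ⟨key, fun hO L hL hb => h1 L hL hb (hO L hL hb), fun hP L hL hb => ?_⟩
  refine (key L hL hb).2 fun M hM => ?_
  obtain ⟨a, b, -⟩ := limit_props hn hL hb hM
  exact hP M a b

theorem result (n : ℕ) (hn : 3 ≤ n) :
    -- 1. countable sets of values are avoided
    (∀ L : Fin n → Fin n → ℝ, LinearIndependent ℝ L → BoundedAway L → ¬ HasMatrix L →
      Recurrent L → ∀ C : Set ℝ, C.Countable →
        Limits L ⊆ closure {M | M ∈ Limits L ∧ ∀ p : Fin n → ℤ, p ≠ 0 → |F M p| ∉ C}) ∧
    -- 2. the limit values near a value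
    (∀ L : Fin n → Fin n → ℝ, LinearIndependent ℝ L → BoundedAway L → ¬ HasMatrix L →
      Recurrent L → ∀ U : Set ℝ, IsOpen U → (U ∩ values L).Nonempty →
        ¬ (U ∩ closure (values L)).Countable) ∧
    -- 3. criteria for a single product
    (∀ L : Fin n → Fin n → ℝ, LinearIndependent ℝ L → BoundedAway L →
      (HasMatrix L ↔ IsClosed (values L)) ∧
      (HasMatrix L ↔ ∀ M ∈ Limits L, Attained M) ∧
      (HasMatrix L ↔ ∀ M ∈ Limits L, HasIsolatedValue M) ∧
      (Recurrent L → (HasMatrix L ↔ HasIsolatedValue L))) ∧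
    -- 4. the conjecture in dimension `n`
    (Oppenheim n ↔ ∀ L : Fin n → Fin n → ℝ, LinearIndependent ℝ L → BoundedAway L →
      IsClosed (values L)) ∧
    (Oppenheim n ↔ ∀ L : Fin n → Fin n → ℝ, LinearIndependent ℝ L → BoundedAway L → Attained L) ∧
    (Oppenheim n ↔ ∀ L : Fin n → Fin n → ℝ, LinearIndependent ℝ L → BoundedAway L →
      HasIsolatedValue L) := by
  obtain ⟨a1, a2⟩ := criterion (n := n) hn (P := Attained) (fun L => attained_of hn)
    (fun L hL hb hA hrec => exists_not_attained hn hL hb hA hrec)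
  obtain ⟨c1, c2⟩ := criterion (n := n) hn (P := HasIsolatedValue) (fun L => isolated_of hn)
    (fun L hL hb hA hrec => ⟨L, self_mem L, not_isolated hn hL hb hA hrec⟩)
  refine ⟨fun L hL hb hA hrec C hC => dense_avoid hn hL hb hA hrec hC,
    fun L hL hb hA hrec U hU hne => uncountable_near hn hL hb hA hrec hU hne,
    fun L hL hb => ⟨⟨closed_of hn hL hb, of_closed hn hL hb⟩, a1 L hL hb, c1 L hL hb,
      fun hrec => ⟨isolated_of hn hL hb, fun h => ?_⟩⟩,
    ⟨fun hO L hL hb => closed_of hn hL hb (hO L hL hb), fun h L hL hb =>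
      of_closed hn hL hb (h L hL hb)⟩, a2, c2⟩
  by_contra hA
  exact not_isolated hn hL hb hA hrec h

end Pool.Agent.Results.MP_77d073_nt.AttainedInfimum
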