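import Mathlib
import Pool.Agent.T9h79.OP.Coin2

/-! # MP_77d073_nt: Oppenheim's conjecture and points with the same value

Let `n ≥ 3`, let `L 1, ..., L n` be independent linear forms with product `F` bounded away from zero
at the nonzero integer points, and let `Limits L` be the set of the limits of the systems
`a i • (L i ∘ γ)` (`a` positive of product one, `γ` integral of determinant `±1`). `L` is recurrent if
it lies in `Limits L'` for all `L'` in `Limits L`; every `L` has recurrent limits.

Two integer points `p, q` are separated for `L` if the ratios `L i p / L i q` are pairwise different,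
and transverse if some value of the ratio is taken for less than `minFac n` of the indices `i`
(`minFac n`: the least prime factor of `n`). Separated points are transverse; if `n` is prime, `p` and
`q` are transverse if and only if they are not proportional.

1. Let `L` be a recurrent counterexample to Oppenheim's conjecture and `C` a countable set of real
   numbers. The limits `M` of `L` such that `F_M(p) / F_M(q)` is not in `C` for all transverse integer
   points `p, q` are dense in `Limits L`.
2. If Oppenheim's conclusion holds for `L`, then for every equivariant open selection `S` of integer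
   points (for instance the vertices of one sail) and every `p` in `S L` there is `q` in `S L` with
   `F(p) = F(q)`, separated from `p`. Conversely, let `C` be countable. If every limit `M` of `L` has
   transverse points with `F_M(p) / F_M(q)` in `C`, then Oppenheim's conclusion holds for `L`.
3. Let `n` be prime, `C` countable and closed, `1 ∈ C`. Oppenheim's conclusion holds for `L` if and
   only if there is `R` such that all parallelepipeds `a i * |L i| ≤ R` (`a` positive of product one,
   in a given direction) contain integer points `p, q`, not proportional, with `F(p) / F(q)` in `C`.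
4. Let `C` be countable, `1 ∈ C`. Oppenheim's conjecture in dimension `n` is equivalent to: all such
   products have transverse integer points `p, q` with `F(p) / F(q)` in `C`; and to: all have separated
   integer points with `F(p) = F(q)`. If `n` is prime: there are no such products `F` for which `|F|`
   takes different values at any two integer points which are not proportional. -/

set_option autoImplicit false

open Filter Topology
open Pool.Agent.T9h79.OP

namespace Pool.Agent.Results.MP_77d073_nt.CoincidingValues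

variable {n : ℕ}

lemma transverse_ne (hn : 3 ≤ n) {L : Fin n → Fin n → ℝ} {p q : Fin n → ℤ}
    (h : Transverse L p q) : p ≠ 0 ∧ q ≠ 0 := by
  classical
  have h0 : ∀ i, form L i (0 : Fin n → ℤ) = 0 := fun i => by simp [form]
  have hle : n.minFac ≤ n := Nat.minFac_le (by omega)
  obtain ⟨i, hi⟩ := h
  have key : (∀ j : Fin n, form L j p * form L i q = form L i p * form L j q) → False := by
    intro hall
    have h1 : (Finset.univ.filter fun j : Fin n =>
        form L j p * form L i q = form L i p * form L j q) = Finset.univ :=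
      Finset.filter_true_of_mem fun j _ => hall j
    have h2 : (Finset.univ.filter fun j : Fin n =>
        form L j p * form L i q = form L i p * form L j q).card = n := by
      rw [h1, Finset.card_univ, Fintype.card_fin]
    have h3 : (Finset.univ.filter fun j : Fin n =>
        form L j p * form L i q = form L i p * form L j q).card < n.minFac := by
      convert hi using 2
    omega
  constructor
  · rintro rfl
    exact key fun j => by rw [h0, h0, zero_mul, zero_mul]
  · rintro rfl
    exact key fun j => by rw [h0, h0, mul_zero, mul_zero]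

theorem result (n : ℕ) (hn : 3 ≤ n) :
    -- 1. recurrent counterexamples
    (∀ L : Fin n → Fin n → ℝ, LinearIndependent ℝ L → BoundedAway L → ¬ HasMatrix L →
      Recurrent L → ∀ C : Set ℝ, C.Countable →
        Limits L ⊆ closure {M | M ∈ Limits L ∧ ∀ p q : Fin n → ℤ, Transverse M p q →
          ∀ r ∈ C, F M p ≠ r * F M q}) ∧
    -- 2. criteria for a single product
    (∀ L : Fin n → Fin n → ℝ, LinearIndependent ℝ L → BoundedAway L →
      (HasMatrix L → ∀ S : (Fin n → Fin n → ℝ) → Set (Fin n → ℤ), Selection S →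
        ∀ p ∈ S L, ∃ q ∈ S L, Separated L p q ∧ F L p = F L q) ∧
      ∀ C : Set ℝ, C.Countable → 1 ∈ C → (HasMatrix L ↔ ∀ M ∈ Limits L,
        ∃ p q : Fin n → ℤ, Transverse M p q ∧ ∃ r ∈ C, F M p = r * F M q)) ∧
    -- 3. prime dimension: the parallelepipeds in one direction
    (n.Prime → ∀ L : Fin n → Fin n → ℝ, LinearIndependent ℝ L → BoundedAway L →
      ∀ C : Set ℝ, C.Countable → IsClosed C → 1 ∈ C →
      ∀ (θ : Fin n → ℝ) (δ : ℝ), ∑ k, θ k = 0 → 0 < δ →
        (HasMatrix L ↔ ∃ (R : ℝ) (N : ℕ), ∀ (a : Fin n → ℝ) (u : ℝ), (∀ i, 0 < a i) →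
          ∏ i, a i = 1 → (N : ℝ) ≤ u → (∀ k, |Real.log (a k) + θ k * u| ≤ δ * u) →
          ∃ p q : Fin n → ℤ, NonProportional p q ∧
            (∀ i, a i * |form L i p| ≤ R ∧ a i * |form L i q| ≤ R) ∧
            ∃ r ∈ C, F L p = r * F L q)) ∧
    -- 4. the conjecture in dimension `n`
    (∀ C : Set ℝ, C.Countable → 1 ∈ C →
      (Oppenheim n ↔ ∀ L : Fin n → Fin n → ℝ, LinearIndependent ℝ L → BoundedAway L →
        ∃ p q : Fin n → ℤ, Transverse L p q ∧ ∃ r ∈ C, F L p = r * F L q)) ∧
    (Oppenheim n ↔ ∀ L : Fin n → Fin n → ℝ, LinearIndependent ℝ L → BoundedAway L →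
      ∃ p q : Fin n → ℤ, Separated L p q ∧ F L p = F L q) ∧
    (n.Prime → (Oppenheim n ↔ ∀ L : Fin n → Fin n → ℝ, LinearIndependent ℝ L → BoundedAway L →
      ∃ p q : Fin n → ℤ, NonProportional p q ∧ |F L p| = |F L q|)) := by
  -- separated points with the same value
  have sep : ∀ L : Fin n → Fin n → ℝ, LinearIndependent ℝ L → BoundedAway L → HasMatrix L →
      ∃ p q : Fin n → ℤ, Separated L p q ∧ F L p = F L q := by
    intro L hL hb hA
    obtain ⟨p, hp⟩ := relMin_nonempty hn hL
    obtain ⟨q, -, h1, h2⟩ := coincide_of hn (sel_relMin hn) hL hb hA hp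
    exact ⟨p, q, h1, h2⟩
  have crit : ∀ L : Fin n → Fin n → ℝ, LinearIndependent ℝ L → BoundedAway L →
      ∀ C : Set ℝ, C.Countable → 1 ∈ C → (HasMatrix L ↔ ∀ M ∈ Limits L,
        ∃ p q : Fin n → ℤ, Transverse M p q ∧ ∃ r ∈ C, F M p = r * F M q) := by
    intro L hL hb C hC h1C
    refine criterion hn hL hb (fun M _ hM1 hM2 hA => ?_) (fun M _ hM1 hM2 hA hrec => ?_)
    · obtain ⟨p, q, h1, h2⟩ := sep M hM1 hM2 hA
      exact ⟨p, q, transverse_of_separated hn h1, 1, h1C, by rw [h2, one_mul]⟩
    · obtain ⟨M', -, hM', hM'2⟩ := mem_closure_iff.1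
        (avoid_pairs hn hM1 hM2 hA hrec hC (self_mem M)) _ isOpen_univ (Set.mem_univ M)
      refine ⟨M', hM', ?_⟩
      rintro ⟨p, q, htr, r, hr, heq⟩
      obtain ⟨hp, hq⟩ := transverse_ne hn htr
      exact hM'2 p q hp hq htr r hr heq
  have conj : ∀ C : Set ℝ, C.Countable → 1 ∈ C →
      (Oppenheim n ↔ ∀ L : Fin n → Fin n → ℝ, LinearIndependent ℝ L → BoundedAway L →
        ∃ p q : Fin n → ℤ, Transverse L p q ∧ ∃ r ∈ C, F L p = r * F L q) := by
    intro C hC h1C
    refine conjecture_iff hn fun L hL hb => ⟨fun hA => ?_, (crit L hL hb C hC h1C).2⟩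
    obtain ⟨p, q, h1, h2⟩ := sep L hL hb hA
    exact ⟨p, q, transverse_of_separated hn h1, 1, h1C, by rw [h2, one_mul]⟩
  refine ⟨?_, fun L hL hb => ⟨fun hA S hS p hp => coincide_of hn hS hL hb hA hp,
    crit L hL hb⟩, ?_, conj, ?_, ?_⟩
  · intro L hL hb hA hrec C hC
    refine (avoid_pairs hn hL hb hA hrec hC).trans (closure_mono ?_)
    rintro M ⟨hM, hM2⟩
    refine ⟨hM, fun p q htr r hr heq => ?_⟩
    obtain ⟨hp, hq⟩ := transverse_ne hn htr
    exact hM2 p q hp hq htr r hr heq
  · intro hpr L hL hb C hC hCc h1C θ δ hθ hδ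
    constructor
    · intro hA
      obtain ⟨R, hR⟩ := uniform_of hn hL hb hA
      refine ⟨R, 0, fun a u ha0 ha1 _ _ => ?_⟩
      obtain ⟨p, q, hp, h1, h2, h3⟩ := hR a ha0 ha1
      exact ⟨p, q, nonProp_of_separated hn hb hp h1, h3, 1, h1C, by rw [h2, one_mul]⟩
    · rintro ⟨R, N, h⟩
      have hdet := Pool.Agent.H905R2.Opp.det_ne hL
      obtain ⟨ν, hν, hnu⟩ := id hb
      obtain ⟨g, hg⟩ := Pool.Agent.R750.CV.YT_nonempty (by omega : 0 < n) hθ hδ hdet hν hnu
      obtain ⟨M₀, rfl⟩ : ∃ M₀ : Fin n → Fin n → ℝ, Matrix.of M₀ = g := ⟨g, rfl⟩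
      have hM₀ : M₀ ∈ Limits L :=
        (Pool.Agent.Results.MP_77d073_nt.IndependentCoefficients.limits_eq L M₀).2
          (Pool.Agent.R750.CV.YT_subset θ δ _ hg)
      obtain ⟨hL0, hb0, hc0⟩ := limit_props hn hL hb hM₀
      refine hc0.2 ((crit M₀ hL0 hb0 C hC h1C).2 fun M hM => ?_)
      obtain ⟨a', b', -⟩ := limit_props hn hL0 hb0 hM
      obtain ⟨p, q, hpq, r, hr, heq⟩ := pair_of_YT hn a' b' (limits_sub_YT hg hM) hCc h
      exact ⟨p, q, transverse_of_prime hpr a' b' hpq, r, hr, heq⟩
  · refine ⟨fun hO L hL hb => sep L hL hb (hO L hL hb), fun h => ?_⟩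
    refine (conj {1} (Set.countable_singleton 1) rfl).2 fun L hL hb => ?_
    obtain ⟨p, q, h1, h2⟩ := h L hL hb
    exact ⟨p, q, transverse_of_separated hn h1, 1, rfl, by rw [h2, one_mul]⟩
  · intro hpr
    refine ⟨fun hO L hL hb => ?_, fun h => ?_⟩
    · obtain ⟨p, q, h1, h2⟩ := sep L hL hb (hO L hL hb)
      have hp : p ≠ 0 := (transverse_ne hn (transverse_of_separated hn h1)).1
      exact ⟨p, q, nonProp_of_separated hn hb hp h1, by rw [h2]⟩
    · refine (conj {1, -1} (Set.toFinite _).countable (by simp)).2 fun L hL hb => ?_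
      obtain ⟨p, q, h1, h2⟩ := h L hL hb
      refine ⟨p, q, transverse_of_prime hpr hL hb h1, ?_⟩
      rcases abs_eq_abs.1 h2 with h3 | h3
      · exact ⟨1, by simp, by rw [h3, one_mul]⟩
      · exact ⟨-1, by simp, by rw [h3]; ring⟩

end Pool.Agent.Results.MP_77d073_nt.CoincidingValues
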