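import Mathlib
import Pool.Agent.T9h79.OP.Neigh

/-! # MP_77d073_nt: relations between the values at neighbouring relative minima

Let `n ≥ 3` be prime, let `L 1, ..., L n` be independent linear forms with product `F` bounded away
from zero at the nonzero integer points, and let `Limits L` be the set of the limits of the systems
`a i • (L i ∘ γ)` (`a` positive of product one, `γ` integral of determinant `±1`). `L` is recurrent if
it lies in `Limits L'` for all `L'` in `Limits L`; every `L` has recurrent limits.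

A tuple selection is a choice `S` of a set `S L` of `m`-tuples of linearly independent integer points
for every such system `L` which is equivariant (if `L' i = a i • (L i ∘ γ)` and `x` is in `S L'`, then
`γ x` is in `S L`) and open (if `x` is in `S L`, it is in `S M` for all systems `M` near `L`). An
example are the pairs of neighbouring relative minima (in the sense of Voronoi): the independent pairs
`x 0, x 1` such that no nonzero integer point `z` satisfies
`|L i z| < max (|L i (x 0)|, |L i (x 1)|)` for all `i`; another example are all the independent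
`m`-tuples of points of a selection of points, for instance of vertices of one sail.

1. Let `m < n`, `S` a tuple selection and `L` a recurrent counterexample to Oppenheim's conjecture. If
   a function of class `C^r` on an open set `V` is zero at the vectors `(F (x 1), ..., F (x m))` in `V`,
   `x` in `S L`, so are all its derivatives of order `≤ r` at these vectors.
2. Let `0 < m < n`, `S` a tuple selection and `S M` not empty for all limits `M` of `L`. Let `θ` be a
   direction (a vector with sum zero) and `δ > 0`. Oppenheim's conclusion holds for `L` if and only if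
   there is a function of class `C^r` on `ℝ ^ m` which is zero, together with some nonzero derivative of
   order `≤ r`, at all limits of the vectors `(F (x 1), ..., F (x m))`, `x` in `S L`, along `(θ, δ)`;
   if and only if some nonzero analytic function on `ℝ ^ m` is zero at all these limits; and if and only
   if some nonzero analytic function on `ℝ ^ m` is zero at all vectors `(F (x 1), ..., F (x m))`,
   `x` in `S L`.
3. In particular Oppenheim's conclusion holds for `L` if and only if there is a nonzero analytic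
   function `φ` on the plane with `φ (F p, F q) = 0` for all neighbouring relative minima `p, q`; and
   Oppenheim's conjecture in the prime dimension `n` is equivalent to the existence of such a relation
   for all `L`. -/

set_option autoImplicit false

open Filter Topology
open Pool.Agent.T9h79.OP

namespace Pool.Agent.Results.MP_77d073_nt.NeighbouringMinima

lemma zero_on_closure {m : ℕ} {V T : Set (Fin m → ℝ)} (hV : IsOpen V) {φ : (Fin m → ℝ) → ℝ}
    (hφ : ContinuousOn φ V) (h : ∀ y ∈ V ∩ T, φ y = 0) {y : Fin m → ℝ} (hyV : y ∈ V)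
    (hy : y ∈ closure T) : φ y = 0 := by
  by_contra hne
  have h1 : ContinuousAt φ y := hφ.continuousAt (hV.mem_nhds hyV)
  have h2 : ∀ᶠ z in 𝓝 y, φ z ≠ 0 ∧ z ∈ V := (h1.eventually_ne hne).and (hV.mem_nhds hyV)
  obtain ⟨z, ⟨h3, h4⟩, h5⟩ := mem_closure_iff_nhds.1 hy _ h2
  exact h3 (h z ⟨h4, h5⟩)

theorem result (n : ℕ) (hn : 3 ≤ n) (hp : n.Prime) :
    -- 1. relations of class `C^r`, recurrent counterexamples
    (∀ m : ℕ, m < n → ∀ S : (Fin n → Fin n → ℝ) → Set (Fin m → Fin n → ℤ), TupleSelection m S →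
      ∀ L : Fin n → Fin n → ℝ, LinearIndependent ℝ L → BoundedAway L → ¬ HasMatrix L →
        Recurrent L → ∀ (V : Set (Fin m → ℝ)) (φ : (Fin m → ℝ) → ℝ) (r : WithTop ℕ∞),
          IsOpen V → ContDiffOn ℝ r φ V → (∀ y ∈ V ∩ tupleValues S L, φ y = 0) →
          ∀ q : ℕ, (q : WithTop ℕ∞) ≤ r → ∀ y ∈ V ∩ tupleValues S L,
            iteratedFDeriv ℝ q φ y = 0) ∧
    -- 2. criteria for a single product
    (∀ m : ℕ, 0 < m → m < n → ∀ S : (Fin n → Fin n → ℝ) → Set (Fin m → Fin n → ℤ),
      TupleSelection m S → ∀ L : Fin n → Fin n → ℝ, LinearIndependent ℝ L → BoundedAway L →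
        (∀ M ∈ Limits L, (S M).Nonempty) →
        (∀ (θ : Fin n → ℝ) (δ : ℝ), ∑ k, θ k = 0 → 0 < δ →
          (HasMatrix L ↔ ∃ (φ : (Fin m → ℝ) → ℝ) (r : WithTop ℕ∞), ContDiff ℝ r φ ∧
            ∀ y ∈ TupleLimits S θ δ L, φ y = 0 ∧
              ∃ q : ℕ, (q : WithTop ℕ∞) ≤ r ∧ iteratedFDeriv ℝ q φ y ≠ 0) ∧
          (HasMatrix L ↔ ∃ φ : (Fin m → ℝ) → ℝ, AnalyticOnNhd ℝ φ Set.univ ∧ φ ≠ 0 ∧
            ∀ y ∈ TupleLimits S θ δ L, φ y = 0)) ∧
        (HasMatrix L ↔ ∃ φ : (Fin m → ℝ) → ℝ, AnalyticOnNhd ℝ φ Set.univ ∧ φ ≠ 0 ∧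
          ∀ y ∈ tupleValues S L, φ y = 0)) ∧
    -- 3. examples of tuple selections
    (TupleSelection (n := n) 2 Neighbours ∧
      ∀ L : Fin n → Fin n → ℝ, LinearIndependent ℝ L → BoundedAway L → (Neighbours L).Nonempty) ∧
    (∀ (m : ℕ) (S : (Fin n → Fin n → ℝ) → Set (Fin n → ℤ)), Selection S →
      TupleSelection m (tuples m S)) ∧
    -- 4. neighbouring relative minima, and the conjecture
    (∀ L : Fin n → Fin n → ℝ, LinearIndependent ℝ L → BoundedAway L →
      (HasMatrix L ↔ ∃ φ : (Fin 2 → ℝ) → ℝ, AnalyticOnNhd ℝ φ Set.univ ∧ φ ≠ 0 ∧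
        ∀ x ∈ Neighbours L, φ (fun k => F L (x k)) = 0)) ∧
    (Oppenheim n ↔ ∀ L : Fin n → Fin n → ℝ, LinearIndependent ℝ L → BoundedAway L →
      ∃ φ : (Fin 2 → ℝ) → ℝ, AnalyticOnNhd ℝ φ Set.univ ∧ φ ≠ 0 ∧
        ∀ x ∈ Neighbours L, φ (fun k => F L (x k)) = 0) := by
  -- the criterion of class `C^r` along a direction
  have smooth : ∀ m : ℕ, 0 < m → m < n →
      ∀ S : (Fin n → Fin n → ℝ) → Set (Fin m → Fin n → ℤ), TupleSelection m S →
      ∀ L : Fin n → Fin n → ℝ, LinearIndependent ℝ L → BoundedAway L →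
        (∀ M ∈ Limits L, (S M).Nonempty) → ∀ (θ : Fin n → ℝ) (δ : ℝ), ∑ k, θ k = 0 → 0 < δ →
          (∃ (φ : (Fin m → ℝ) → ℝ) (r : WithTop ℕ∞), ContDiff ℝ r φ ∧
            ∀ y ∈ TupleLimits S θ δ L, φ y = 0 ∧
              ∃ q : ℕ, (q : WithTop ℕ∞) ≤ r ∧ iteratedFDeriv ℝ q φ y ≠ 0) → HasMatrix L := by
    rintro m hm hmn S hS L hL hb hne θ δ hθ hδ ⟨φ, r, hφ, hz⟩
    have hdet := Pool.Agent.H905R2.Opp.det_ne hL
    obtain ⟨ν, hν, hnu⟩ := id hb
    obtain ⟨g, hg⟩ := Pool.Agent.R750.CV.YT_nonempty (by omega : 0 < n) hθ hδ hdet hν hnu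
    obtain ⟨M₀, rfl⟩ : ∃ M₀ : Fin n → Fin n → ℝ, Matrix.of M₀ = g := ⟨g, rfl⟩
    have hM₀ : M₀ ∈ Limits L :=
      (Pool.Agent.Results.MP_77d073_nt.IndependentCoefficients.limits_eq L M₀).2
        (Pool.Agent.R750.CV.YT_subset θ δ _ hg)
    obtain ⟨hL0, hb0, hc0⟩ := limit_props hn hL hb hM₀
    by_contra hA
    obtain ⟨L', hL', hrec⟩ := exists_recurrent hn hL0 hb0
    obtain ⟨a, b, c⟩ := limit_props hn hL0 hb0 hL'
    obtain ⟨x, hx⟩ := hne L' (limits_trans hM₀ hL')
    have hmem : ∀ M ∈ Limits L', ∀ x ∈ S M, FF' x M ∈ TupleLimits S θ δ L := by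
      intro M hM x hx
      obtain ⟨a', b', -⟩ := limit_props hn a b hM
      exact tuple_along hS hL hb a' b' (limits_sub_YT hg (limits_trans hL' hM)) hx
    obtain ⟨-, q, hq, hq2⟩ := hz _ (hmem L' (self_mem L') x hx)
    exact hq2 (flat_recurrent hn hp hmn hS a b (fun h => hA (hc0.2 (c.2 h))) hrec isOpen_univ
      hφ.contDiffOn (fun M hM x hx _ => (hz _ (hmem M hM x hx)).1) hx (Set.mem_univ _) q hq)
  have analytic : ∀ m : ℕ, 0 < m → m < n →
      ∀ S : (Fin n → Fin n → ℝ) → Set (Fin m → Fin n → ℤ), TupleSelection m S →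
      ∀ L : Fin n → Fin n → ℝ, LinearIndependent ℝ L → BoundedAway L →
        (∀ M ∈ Limits L, (S M).Nonempty) → ∀ (θ : Fin n → ℝ) (δ : ℝ), ∑ k, θ k = 0 → 0 < δ →
          (∃ φ : (Fin m → ℝ) → ℝ, AnalyticOnNhd ℝ φ Set.univ ∧ φ ≠ 0 ∧
            ∀ y ∈ TupleLimits S θ δ L, φ y = 0) → HasMatrix L := by
    rintro m hm hmn S hS L hL hb hne θ δ hθ hδ ⟨φ, hφ, hφ0, hz⟩
    refine smooth m hm hmn S hS L hL hb hne θ δ hθ hδ ⟨φ, ⊤, hφ.contDiff, fun y hy => ⟨hz y hy, ?_⟩⟩
    by_contra hcon
    push Not at hcon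
    exact hφ0 (analytic_zero_of_flat hφ (y := y) fun q => hcon q le_top)
  have values : ∀ m : ℕ, 0 < m → m < n →
      ∀ S : (Fin n → Fin n → ℝ) → Set (Fin m → Fin n → ℤ), TupleSelection m S →
      ∀ L : Fin n → Fin n → ℝ, LinearIndependent ℝ L → BoundedAway L →
        (∀ M ∈ Limits L, (S M).Nonempty) →
          (HasMatrix L ↔ ∃ φ : (Fin m → ℝ) → ℝ, AnalyticOnNhd ℝ φ Set.univ ∧ φ ≠ 0 ∧
            ∀ y ∈ tupleValues S L, φ y = 0) := by
    intro m hm hmn S hS L hL hb hne
    constructor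
    · intro hA
      obtain ⟨φ, h1, h2, h3⟩ := relation_of (S := S) hn hm hL hb hA
      exact ⟨φ, h1, h3, fun y hy => (h2 y (subset_closure hy)).1⟩
    · rintro ⟨φ, hφ, hφ0, hz⟩
      refine analytic m hm hmn S hS L hL hb hne 0 1 (by simp) one_pos ⟨φ, hφ, hφ0, fun y hy => ?_⟩
      exact zero_on_closure isOpen_univ hφ.continuousOn (fun z hz' => hz z hz'.2)
        (Set.mem_univ _) (isClosed_tupleLimits S 0 1 L hy)
  have neigh : ∀ L : Fin n → Fin n → ℝ, LinearIndependent ℝ L → BoundedAway L →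
      (HasMatrix L ↔ ∃ φ : (Fin 2 → ℝ) → ℝ, AnalyticOnNhd ℝ φ Set.univ ∧ φ ≠ 0 ∧
        ∀ x ∈ Neighbours L, φ (fun k => F L (x k)) = 0) := by
    intro L hL hb
    rw [values 2 (by omega) (by omega) Neighbours sel_neighbours L hL hb fun M hM => by
      obtain ⟨h1, h2, -⟩ := limit_props hn hL hb hM
      exact neighbours_nonempty hn h1 h2]
    refine exists_congr fun φ => and_congr_right fun _ => and_congr_right fun _ => ?_
    constructor
    · intro h x hx
      exact h _ ⟨x, hx, fun _ => rfl⟩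
    · rintro h y ⟨x, hx, hy⟩
      have : y = fun k => F L (x k) := funext hy
      rw [this]
      exact h x hx
  refine ⟨?_, ?_, ⟨sel_neighbours, fun L hL hb => neighbours_nonempty hn hL hb⟩,
    fun m S hS => sel_tuples hS, neigh, fun hO L hL hb => (neigh L hL hb).1 (hO L hL hb),
    fun h L hL hb => (neigh L hL hb).2 (h L hL hb)⟩
  · rintro m hmn S hS L hL hb hA hrec V φ r hV hφ hz q hq y ⟨hyV, x, hx, hy⟩
    have hyx : y = FF' x L := funext hy
    subst hyx
    exact flat_recurrent hn hp hmn hS hL hb hA hrec hV hφ (fun M hM x' hx' hxV =>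
      zero_on_closure hV hφ.continuousOn hz hxV (tuple_limit hn hS hL hb hM hx')) hx hyV q hq
  · intro m hm hmn S hS L hL hb hne
    refine ⟨fun θ δ hθ hδ => ⟨⟨fun hA => ?_, smooth m hm hmn S hS L hL hb hne θ δ hθ hδ⟩,
      ⟨fun hA => ?_, analytic m hm hmn S hS L hL hb hne θ δ hθ hδ⟩⟩,
      values m hm hmn S hS L hL hb hne⟩
    · obtain ⟨φ, h1, h2, -⟩ := relation_of (S := S) hn hm hL hb hA
      exact ⟨φ, 1, h1.contDiff, fun y hy =>
        ⟨(h2 y (isClosed_tupleLimits S θ δ L hy)).1, 1, by simp,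
          (h2 y (isClosed_tupleLimits S θ δ L hy)).2⟩⟩
    · obtain ⟨φ, h1, h2, h3⟩ := relation_of (S := S) hn hm hL hb hA
      exact ⟨φ, h1, h3, fun y hy => (h2 y (isClosed_tupleLimits S θ δ L hy)).1⟩

end Pool.Agent.Results.MP_77d073_nt.NeighbouringMinima
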