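import Mathlib
import Pool.Agent.T9h79.OP.Engine

/-! # MP_77d073_nt: Oppenheim's conclusion is decided by the vertices of one sail

Let `n ≥ 3`, let `L 1, ..., L n` be independent linear forms with product `F` bounded away from zero
at the nonzero integer points, and let `Limits L` be the set of the limits of the systems
`a i • (L i ∘ γ)` (`a` positive of product one, `γ` integral of determinant `±1`). `L` is recurrent if
it lies in `Limits L'` for all `L'` in `Limits L`; every `L` has recurrent limits.

A selection is a choice `S` of a set `S L` of nonzero integer points for every such system `L` which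
is equivariant (if `L' i = a i • (L i ∘ γ)` and `p` is in `S L'`, then `γ p` is in `S L`) and open (if
`p` is in `S L`, it is in `S M` for all systems `M` near `L`). Examples:

* `Orthant s L`, the integer points of the open orthant in which `L i` has the sign `s i`;
* `Vertices s L`, the vertices of the Klein polyhedron (sail) of this orthant: the points of
  `Orthant s L` at which some combination of the `|L i|` with positive coefficients has its unique
  minimum over `Orthant s L`;
* `RelativeMinima L`, the nonzero integer points `p` such that no nonzero integer point `q` satisfies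
  `|L i q| < |L i p|` for all `i`.

1. Let `S` be a selection, `L` a system as above and `S M` not empty for all limits `M` of `L`. Then
   Oppenheim's conclusion holds for `L` if and only if the set of the values of `|F|` on `S L` is
   closed; if and only if its closure is countable; if and only if, for a given direction `θ` (a
   vector with sum zero) and a given `δ > 0`, the limits of the values of `|F|` at points `p` of `S L`
   with `|log |L k p| - u θ k| ≤ δ u`, `u → ∞`, form a countable set; if and only if for all limits
   `M` of `L` the infimum of `|F_M|` over `S M` is attained; and if and only if for all limits `M` of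
   `L` the values of `|F_M|` on `S M` have an isolated point.
2. Let `S` be a selection, `L` recurrent and `S L` not empty. The conclusion holds for `L` if and only
   if the values of `|F|` on `S L` have an isolated point. If it does not hold, every open set which
   contains a value of `|F|` on `S L` contains uncountably many limits of such values.
3. The three examples are selections, with `S L` not empty for all systems as above. For the vertices
   of a sail and for the relative minima the conclusion holds if and only if `|F|` takes only
   finitely many values on `S L`.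
4. Oppenheim's conjecture in dimension `n` is equivalent to each of the statements: for all such
   products (S: a selection with `S L` not empty for all systems as above) the set of the values on
   `S L` is closed; the infimum over `S L` is attained; the set of the values on `S L` has an isolated
   point; (vertices of one sail, relative minima) the set of the values on `S L` is finite.

So one sail, even the part of one sail in an arbitrarily small sector, decides the conclusion. -/

set_option autoImplicit false

open Filter Topology
open Pool.Agent.T9h79.OP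

namespace Pool.Agent.Results.MP_77d073_nt.SailVertices

theorem result (n : ℕ) (hn : 3 ≤ n) :
    -- 1. criteria for a single product and a selection
    (∀ S : (Fin n → Fin n → ℝ) → Set (Fin n → ℤ), Selection S →
      ∀ L : Fin n → Fin n → ℝ, LinearIndependent ℝ L → BoundedAway L →
        (∀ M ∈ Limits L, (S M).Nonempty) →
        (HasMatrix L ↔ IsClosed (valuesOn S L)) ∧
        (HasMatrix L ↔ (closure (valuesOn S L)).Countable) ∧
        (∀ (θ : Fin n → ℝ) (δ : ℝ), ∑ k, θ k = 0 → 0 < δ →
          (HasMatrix L ↔ (LimitAlong S θ δ L).Countable)) ∧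
        (HasMatrix L ↔ ∀ M ∈ Limits L, Attained S M) ∧
        (HasMatrix L ↔ ∀ M ∈ Limits L, HasIsolatedValue S M)) ∧
    -- 2. recurrent products
    (∀ S : (Fin n → Fin n → ℝ) → Set (Fin n → ℤ), Selection S →
      ∀ L : Fin n → Fin n → ℝ, LinearIndependent ℝ L → BoundedAway L → Recurrent L →
        ((S L).Nonempty → (HasMatrix L ↔ HasIsolatedValue S L)) ∧
        (¬ HasMatrix L → ∀ U : Set ℝ, IsOpen U → (U ∩ valuesOn S L).Nonempty →
          ¬ (U ∩ closure (valuesOn S L)).Countable)) ∧
    -- 3. orthants, vertices of sails, relative minima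
    (∀ s : Fin n → ℤˣ, Selection (Orthant s) ∧ Total (Orthant s)) ∧
    (∀ s : Fin n → ℤˣ, Selection (Vertices s) ∧ Total (Vertices s)) ∧
    (Selection (n := n) RelativeMinima ∧ Total (n := n) RelativeMinima) ∧
    (∀ L : Fin n → Fin n → ℝ, LinearIndependent ℝ L → BoundedAway L →
      (∀ s : Fin n → ℤˣ, (HasMatrix L ↔ (valuesOn (Vertices s) L).Finite)) ∧
      (HasMatrix L ↔ (valuesOn RelativeMinima L).Finite)) ∧
    -- 4. the conjecture in dimension `n`
    (∀ S : (Fin n → Fin n → ℝ) → Set (Fin n → ℤ), Selection S → Total S →
      (Oppenheim n ↔ ∀ L : Fin n → Fin n → ℝ, LinearIndependent ℝ L → BoundedAway L →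
        IsClosed (valuesOn S L)) ∧
      (Oppenheim n ↔ ∀ L : Fin n → Fin n → ℝ, LinearIndependent ℝ L → BoundedAway L →
        Attained S L) ∧
      (Oppenheim n ↔ ∀ L : Fin n → Fin n → ℝ, LinearIndependent ℝ L → BoundedAway L →
        HasIsolatedValue S L)) ∧
    (∀ s : Fin n → ℤˣ, (Oppenheim n ↔ ∀ L : Fin n → Fin n → ℝ, LinearIndependent ℝ L →
      BoundedAway L → (valuesOn (Vertices s) L).Finite)) ∧
    (Oppenheim n ↔ ∀ L : Fin n → Fin n → ℝ, LinearIndependent ℝ L → BoundedAway L →
      (valuesOn RelativeMinima L).Finite) := by
  -- the criteria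
  have att : ∀ S : (Fin n → Fin n → ℝ) → Set (Fin n → ℤ), Selection S →
      ∀ L : Fin n → Fin n → ℝ, LinearIndependent ℝ L → BoundedAway L →
        (∀ M ∈ Limits L, (S M).Nonempty) → (HasMatrix L ↔ ∀ M ∈ Limits L, Attained S M) :=
    fun S hS L hL hb hne => criterion hn hL hb
      (fun M hM hM1 hM2 hA => attained_of hn hM1 hM2 hA (hne M hM))
      (fun M hM hM1 hM2 hA hrec => exists_not_attained hn hS hM1 hM2 hA hrec (hne M hM))
  have iso : ∀ S : (Fin n → Fin n → ℝ) → Set (Fin n → ℤ), Selection S →
      ∀ L : Fin n → Fin n → ℝ, LinearIndependent ℝ L → BoundedAway L →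
        (∀ M ∈ Limits L, (S M).Nonempty) →
        (HasMatrix L ↔ ∀ M ∈ Limits L, HasIsolatedValue S M) :=
    fun S hS L hL hb hne => criterion hn hL hb
      (fun M hM hM1 hM2 hA => isolated_of hn hM1 hM2 hA (hne M hM))
      (fun M hM hM1 hM2 hA hrec => ⟨M, self_mem M, not_isolated hn hS hM1 hM2 hA hrec⟩)
  have tot : ∀ S : (Fin n → Fin n → ℝ) → Set (Fin n → ℤ), Total S →
      ∀ L : Fin n → Fin n → ℝ, LinearIndependent ℝ L → BoundedAway L →
        ∀ M ∈ Limits L, (S M).Nonempty := by
    intro S hT L hL hb M hM
    obtain ⟨h1, h2, -⟩ := limit_props hn hL hb hM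
    exact hT M h1 h2
  have tO : ∀ s : Fin n → ℤˣ, Total (Orthant s) := fun s L hL _ => orthant_nonempty hL s
  have tV : ∀ s : Fin n → ℤˣ, Total (Vertices s) := fun s L hL hb => vertices_nonempty hn hL hb s
  have tR : Total (n := n) RelativeMinima := fun L hL _ => relMin_nonempty hn hL
  have finV : ∀ (s : Fin n → ℤˣ) (L : Fin n → Fin n → ℝ), LinearIndependent ℝ L →
      BoundedAway L → (HasMatrix L ↔ (valuesOn (Vertices s) L).Finite) := by
    intro s L hL hb
    refine ⟨fun hA => ?_, fun hf => ?_⟩
    · obtain ⟨B, hB⟩ := vertices_bound hn hL hb s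
      exact finite_of_bounded hn hL hb hA B hB
    · exact of_closed hn (sel_vertices hn s) hL hb (tot _ (tV s) L hL hb) hf.isClosed
  have finR : ∀ L : Fin n → Fin n → ℝ, LinearIndependent ℝ L →
      BoundedAway L → (HasMatrix L ↔ (valuesOn RelativeMinima L).Finite) := by
    intro L hL hb
    refine ⟨fun hA => ?_, fun hf => ?_⟩
    · obtain ⟨B, hB⟩ := relMin_bound hn hL hb
      exact finite_of_bounded hn hL hb hA B hB
    · exact of_closed hn (sel_relMin hn) hL hb (tot _ tR L hL hb) hf.isClosed
  refine ⟨fun S hS L hL hb hne => ⟨⟨closed_of hn hL hb, of_closed hn hS hL hb hne⟩,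
      ⟨countable_closure_of hn hL hb, of_countable hn hS hL hb hne⟩,
      fun θ δ hθ hδ => ⟨fun hA => direction_of hn hL hb hA θ δ,
        of_direction hn hS hL hb hne hθ hδ⟩, att S hS L hL hb hne, iso S hS L hL hb hne⟩,
    fun S hS L hL hb hrec => ⟨fun hne => ⟨fun hA => isolated_of hn hL hb hA hne, fun h => ?_⟩,
      fun hA U hU hne => uncountable_near hn hS hL hb hA hrec hU hne⟩,
    fun s => ⟨sel_orthant hn s, tO s⟩, fun s => ⟨sel_vertices hn s, tV s⟩,
    ⟨sel_relMin hn, tR⟩, fun L hL hb => ⟨fun s => finV s L hL hb, finR L hL hb⟩,
    fun S hS hT => ⟨?_, ?_, ?_⟩, fun s => ?_, ?_⟩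
  · by_contra hA
    exact not_isolated hn hS hL hb hA hrec h
  · exact ⟨fun hO L hL hb => closed_of hn hL hb (hO L hL hb), fun h L hL hb =>
      of_closed hn hS hL hb (tot S hT L hL hb) (h L hL hb)⟩
  · exact conjecture_iff hn fun L hL hb => ⟨fun hA => attained_of hn hL hb hA (hT L hL hb),
      (att S hS L hL hb (tot S hT L hL hb)).2⟩
  · exact conjecture_iff hn fun L hL hb => ⟨fun hA => isolated_of hn hL hb hA (hT L hL hb),
      (iso S hS L hL hb (tot S hT L hL hb)).2⟩
  · exact ⟨fun hO L hL hb => (finV s L hL hb).1 (hO L hL hb), fun h L hL hb =>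
      (finV s L hL hb).2 (h L hL hb)⟩
  · exact ⟨fun hO L hL hb => (finR L hL hb).1 (hO L hL hb), fun h L hL hb =>
      (finR L hL hb).2 (h L hL hb)⟩

end Pool.Agent.Results.MP_77d073_nt.SailVertices
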